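import Pool.Agent.Helper15.RK.GoalsF
import Pool.Agent.Helper83.SP.DER

/-! Packet RK-A DERK. -/

set_option autoImplicit false

open Complex Metric Set Filter Topology MeasureTheory
open scoped ContDiff ComplexConjugate ComplexOrder Manifold Matrix

namespace Pool.Agent.Helper58.RK

open Pool.Agent.Helper95.Lin Pool.Agent.Helper16.Abund Pool.Agent.Helper92.Orb
  Pool.Agent.Helper10.SP Pool.Agent.Helper95.RK Pool.Agent.Helper15.RK
open Pool.Agent.Helper83.SP (cd_congr cd_const cd_sum cd_sum_mul)

theorem derk (hWIRT : S_WIRT) (hLMF : S_LMF) : S_DERK := by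
  intro b k Φ W L w v hK
  have hO := hK.isOpen
  obtain ⟨smH, hherm, hlev, hclos⟩ := hLMF W hO Φ hK.smP
  have sv : ∀ α j, ContDiffOn ℝ ∞ (fun y => v α y j) W := fun α j =>
    contDiffOn_pi.mp (hK.smv α) j
  have sc : ∀ α j, ContDiffOn ℝ ∞ (fun y => conj (v α y j)) W := fun α j =>
    Complex.conjCLE.contDiff.comp_contDiffOn (sv α j)
  have w' := fun (f g : Cn (b + k) → ℂ) (hf : ContDiffOn ℝ ∞ f W) (hg : ContDiffOn ℝ ∞ g W) =>
    hWIRT W hO f g hf hg
  have scd : ∀ (f : Cn (b + k) → ℂ), ContDiffOn ℝ ∞ f W → ∀ l, ContDiffOn ℝ ∞ (cd l f) W :=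
    fun f hf l => ((w' f f hf hf).1 l).1
  have scdb : ∀ (f : Cn (b + k) → ℂ), ContDiffOn ℝ ∞ f W → ∀ l, ContDiffOn ℝ ∞ (cdb l f) W :=
    fun f hf l => ((w' f f hf hf).1 l).2
  have ccj : ∀ α j l, ∀ x ∈ W,
      cd l (fun y => conj (v α y j)) x = conj (cdb l (fun y => v α y j) x) ∧
      cdb l (fun y => conj (v α y j)) x = conj (cd l (fun y => v α y j) x) :=
    fun α j l x hx => (w' _ _ (sv α j) (sv α j)).2.2.2.1 l x hx
  have comm : ∀ (f : Cn (b + k) → ℂ), ContDiffOn ℝ ∞ f W → ∀ l m, ∀ x ∈ W,
      cd l (cd m f) x = cd m (cd l f) x ∧ cdb l (cdb m f) x = cdb m (cdb l f) x ∧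
      cd l (cdb m f) x = cdb m (cd l f) x :=
    fun f hf l m x hx => (w' f f hf hf).2.2.2.2.1 l m x hx
  -- the linear map
  obtain ⟨a, hL⟩ : ∃ a : Fin (b + k) → Fin k → ℂ, ∀ (e : Cn (b + k)) γ,
      L e γ = ∑ i, a i γ * e i := by
    refine ⟨fun i => L (fun j => if i = j then 1 else 0), fun e γ => ?_⟩
    rw [LinearMap.pi_apply_eq_sum_univ L e, Finset.sum_apply]
    refine Finset.sum_congr rfl fun i _ => ?_
    rw [Pi.smul_apply, smul_eq_mul, mul_comm]
  -- (7)
  have h7 : ∀ x ∈ W, ∀ α l, L (fun j => Tm (v α) x j l) = 0 ∧ L (fun j => Bm (v α) x j l) = 0 := by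
    intro x hx α l
    have key : ∀ γ, ∑ j, a j γ * cd l (fun y => v α y j) x = 0 ∧
        ∑ j, a j γ * cdb l (fun y => v α y j) x = 0 := by
      intro γ
      have h1 := cd_sum_mul hWIRT hO (fun (j : Fin (b + k)) (_ : Cn (b + k)) => a j γ)
        (fun j y => v α y j) (fun j => contDiffOn_const) (fun j => sv α j) l hx
      have h2 := cd_congr hO
        (f := fun y => ∑ j, a j γ * v α y j)
        (g := fun _ => (Pi.single α 1 : Cn k) γ) (fun y hy => by
          rw [← hK.norm y hy α, hL (v α y)]) l hx
      have h3 := cd_const (n := b + k) ((Pi.single α 1 : Cn k) γ) l x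
      have h4 : ∀ j : Fin (b + k), cd l (fun _ => a j γ) x = 0 ∧ cdb l (fun _ => a j γ) x = 0 :=
        fun j => cd_const (n := b + k) (a j γ) l x
      constructor
      · refine Eq.trans ?_ (h1.1.symm.trans (h2.1.trans h3.1))
        refine Finset.sum_congr rfl fun j _ => ?_
        rw [(h4 j).1, mul_zero, add_zero]
      · refine Eq.trans ?_ (h1.2.symm.trans (h2.2.trans h3.2))
        refine Finset.sum_congr rfl fun j _ => ?_
        rw [(h4 j).2, mul_zero, add_zero]
    constructor
    · funext γ
      rw [hL]
      exact (key γ).2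
    · funext γ
      rw [hL]
      exact (key γ).1
  -- kernel vectors
  have honly : ∀ x ∈ W, ∀ e : Cn (b + k), (∀ j, ∑ i, LM Φ x i j * e i = 0) → L e = 0 →
      e = 0 := by
    intro x hx e he hLe
    have h1 : ((lev Φ x e : ℝ) : ℂ) = 0 := by
      rw [hlev x hx e, hermi, Finset.sum_comm]
      refine Finset.sum_eq_zero fun j _ => ?_
      rw [← Finset.sum_mul, he j, zero_mul]
    have h2 := hK.only x hx e (by exact_mod_cast h1)
    rw [hLe] at h2
    rw [h2]
    refine Finset.sum_eq_zero fun α _ => ?_
    rw [Pi.zero_apply, zero_smul]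
  -- derivative of the kernel equation
  have hker : ∀ x ∈ W, ∀ α q l,
      ∑ j, (LM Φ x j q * cd l (fun y => v α y j) x + v α x j * cd l (fun y => LM Φ y j q) x) = 0 ∧
      ∑ j, (LM Φ x j q * cdb l (fun y => v α y j) x +
        v α x j * cdb l (fun y => LM Φ y j q) x) = 0 := by
    intro x hx α q l
    have h1 := cd_sum_mul hWIRT hO (fun j y => LM Φ y j q) (fun j y => v α y j)
      (fun j => smH j q) (sv α) l hx
    have h2 := cd_congr hO (f := fun y => ∑ j, LM Φ y j q * v α y j) (g := fun _ => 0)
      (fun y hy => hK.ker y hy α q) l hx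
    have h3 := cd_const (n := b + k) 0 l x
    constructor
    · rw [← h1.1, h2.1, h3.1]
    · rw [← h1.2, h2.2, h3.2]
  -- (1)
  have h1a : ∀ x ∈ W, ∀ α q l, ((LM Φ x)ᵀ * Tm (v α) x) q l =
      - ∑ j, v α x j * cdb l (fun y => LM Φ y j q) x := by
    intro x hx α q l
    have h1 := (hker x hx α q l).2
    rw [Finset.sum_add_distrib] at h1
    rw [Matrix.mul_apply]
    exact eq_neg_of_add_eq_zero_left h1
  have h1 : ∀ x ∈ W, ∀ α q l, ((LM Φ x)ᵀ * Tm (v α) x) q l = ((LM Φ x)ᵀ * Tm (v α) x) l q := by
    intro x hx α q l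
    rw [h1a x hx α q l, h1a x hx α l q]
    congr 1
    exact Finset.sum_congr rfl fun j _ => by rw [(hclos x hx j q l).2]
  -- conjugate of the kernel equation
  have hkc : ∀ x ∈ W, ∀ α j, ∑ l, LM Φ x j l * conj (v α x l) = 0 := by
    intro x hx α j
    have h2 := congrArg conj (hK.ker x hx α j)
    rw [map_sum, map_zero] at h2
    rw [← h2]
    refine Finset.sum_congr rfl fun l _ => ?_
    rw [map_mul]
    congr 1
    have := (hherm x hx).apply j l
    rw [← this]
    rfl
  -- (2)
  have h2 : ∀ x ∈ W, ∀ α β j, ∑ l, conj (v β x l) * cdb l (fun y => v α y j) x = 0 := by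
    intro x hx α β j
    have hz := honly x hx (fun j => ∑ l, conj (v β x l) * cdb l (fun y => v α y j) x) (by
      intro q
      calc ∑ j, LM Φ x j q * ∑ l, conj (v β x l) * cdb l (fun y => v α y j) x
          = ∑ l, conj (v β x l) * ((LM Φ x)ᵀ * Tm (v α) x) q l := by
            simp only [Matrix.mul_apply, Finset.mul_sum]
            rw [Finset.sum_comm]
            refine Finset.sum_congr rfl fun l _ => Finset.sum_congr rfl fun j _ => ?_
            change _ = conj (v β x l) * (LM Φ x j q * cdb l (fun y => v α y j) x)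
            ring
        _ = ∑ l, conj (v β x l) * ((LM Φ x)ᵀ * Tm (v α) x) l q :=
            Finset.sum_congr rfl fun l _ => by rw [h1 x hx α q l]
        _ = ∑ j, cdb q (fun y => v α y j) x * ∑ l, LM Φ x j l * conj (v β x l) := by
            simp only [Matrix.mul_apply, Finset.mul_sum]
            rw [Finset.sum_comm]
            refine Finset.sum_congr rfl fun j _ => Finset.sum_congr rfl fun l _ => ?_
            change conj (v β x l) * (LM Φ x j l * cdb q (fun y => v α y j) x) = _
            ring
        _ = 0 := by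
            refine Finset.sum_eq_zero fun j _ => ?_
            rw [hkc x hx β j, mul_zero]) (by
      have h3 : (fun j => ∑ l, conj (v β x l) * cdb l (fun y => v α y j) x) =
          ∑ l, conj (v β x l) • (fun j => Tm (v α) x j l) := by
        funext j
        rw [Finset.sum_apply]
        rfl
      rw [h3, map_sum]
      refine Finset.sum_eq_zero fun l _ => ?_
      rw [map_smul, (h7 x hx α l).1, smul_zero])
    exact congrFun hz j
  -- (3)
  have h3 : ∀ x ∈ W, ∀ α β j, Dv (v α) (fun y => v β y j) x = Dv (v β) (fun y => v α y j) x := by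
    intro x hx α β j
    have e1 : ∀ α β q, ∑ i, LM Φ x i q * Dv (v α) (fun y => v β y i) x =
        - ∑ m, ∑ i, v α x m * (v β x i * cd m (fun y => LM Φ y i q) x) := by
      intro α β q
      have e2 : ∑ m, v α x m * ∑ i, (LM Φ x i q * cd m (fun y => v β y i) x +
          v β x i * cd m (fun y => LM Φ y i q) x) = 0 :=
        Finset.sum_eq_zero fun m _ => by rw [(hker x hx β q m).1, mul_zero]
      simp only [Finset.mul_sum, mul_add, Finset.sum_add_distrib] at e2
      have e3 : ∑ i, LM Φ x i q * Dv (v α) (fun y => v β y i) x =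
          ∑ m, ∑ i, v α x m * (LM Φ x i q * cd m (fun y => v β y i) x) := by
        simp only [Dv, Finset.mul_sum]
        rw [Finset.sum_comm]
        exact Finset.sum_congr rfl fun m _ => Finset.sum_congr rfl fun i _ => by ring
      rw [e3]
      exact eq_neg_of_add_eq_zero_left e2
    have e4 : ∀ α β, L (fun m => Dv (v α) (fun y => v β y m) x) = 0 := by
      intro α β
      have h3 : (fun m => Dv (v α) (fun y => v β y m) x) =
          ∑ l, v α x l • (fun j => Bm (v β) x j l) := by
        funext j
        rw [Finset.sum_apply]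
        rfl
      rw [h3, map_sum]
      refine Finset.sum_eq_zero fun l _ => ?_
      rw [map_smul, (h7 x hx β l).2, smul_zero]
    have hz := honly x hx
      ((fun j => Dv (v α) (fun y => v β y j) x) - (fun j => Dv (v β) (fun y => v α y j) x)) (by
        intro q
        have e5 : ∑ i, LM Φ x i q * ((fun j => Dv (v α) (fun y => v β y j) x) -
            (fun j => Dv (v β) (fun y => v α y j) x)) i =
            ∑ i, LM Φ x i q * Dv (v α) (fun y => v β y i) x -
            ∑ i, LM Φ x i q * Dv (v β) (fun y => v α y i) x := by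
          rw [← Finset.sum_sub_distrib]
          exact Finset.sum_congr rfl fun i _ => mul_sub _ _ _
        rw [e5, e1 α β q, e1 β α q, sub_eq_zero, neg_inj, Finset.sum_comm]
        refine Finset.sum_congr rfl fun m _ => Finset.sum_congr rfl fun i _ => ?_
        rw [(hclos x hx i q m).1]
        ring) (by
        rw [map_sub, e4 α β, e4 β α, sub_zero])
    exact sub_eq_zero.1 (congrFun hz j)
  have h2' : ∀ x ∈ W, ∀ α β j l,
      ∑ m, (conj (v β x m) * cd l (cdb m (fun y => v α y j)) x +
        cdb m (fun y => v α y j) x * conj (Tm (v β) x m l)) = 0 := by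
    intro x hx α β j l
    have e1 := cd_sum_mul hWIRT hO (fun m y => conj (v β y m))
      (fun m y => cdb m (fun y => v α y j) y) (sc β) (fun m => scdb _ (sv α j) m) l hx
    have e2 := cd_congr hO (f := fun y => ∑ m, conj (v β y m) * cdb m (fun y => v α y j) y)
      (g := fun _ => 0) (fun y hy => h2 y hy α β j) l hx
    have e3 := cd_const (n := b + k) 0 l x
    rw [← e3.1, ← e2.1, e1.1]
    exact Finset.sum_congr rfl fun m _ => by rw [(ccj β m l x hx).1]; rfl
  intro x hx
  refine ⟨?_, fun α β j => h2 x hx α β j, h3 x hx, ?_, ?_, ?_, h7 x hx⟩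
  · intro α
    ext q l
    exact h1 x hx α l q
  · intro f hf α β
    constructor
    · have e1 : ∀ j, cd j (Dvb (v β) f) x = ∑ q, (conj (v β x q) * cd j (cdb q f) x +
          cdb q f x * conj (Tm (v β) x q j)) := by
        intro j
        have := (cd_sum_mul hWIRT hO (fun q y => conj (v β y q)) (fun q y => cdb q f y)
          (sc β) (fun q => scdb f hf q) j hx).1
        refine this.trans (Finset.sum_congr rfl fun q _ => ?_)
        rw [(ccj β q j x hx).1]
        rfl
      have e2 : ∀ q, cdb q (Dv (v α) f) x = ∑ j, (v α x j * cdb q (cd j f) x +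
          cd j f x * Tm (v α) x j q) := by
        intro q
        exact (cd_sum_mul hWIRT hO (fun j y => v α y j) (fun j y => cd j f y)
          (sv α) (fun j => scd f hf j) q hx).2
      have e3 : Dv (v α) (Dvb (v β) f) x =
          ∑ j, ∑ q, v α x j * conj (v β x q) * cd j (cdb q f) x := by
        have : Dv (v α) (Dvb (v β) f) x =
            ∑ j, ∑ q, v α x j * conj (v β x q) * cd j (cdb q f) x +
            ∑ q, cdb q f x * conj (∑ j, conj (v α x j) * Tm (v β) x q j) := by
          simp only [Dv, e1, Finset.mul_sum, map_sum, map_mul, Complex.conj_conj, mul_add,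
            Finset.sum_add_distrib]
          congr 1
          · exact Finset.sum_congr rfl fun j _ => Finset.sum_congr rfl fun q _ => by ring
          · rw [Finset.sum_comm]
            exact Finset.sum_congr rfl fun j _ => Finset.sum_congr rfl fun q _ => by ring
        rw [this]
        have h0 : ∑ q, cdb q f x * conj (∑ j, conj (v α x j) * Tm (v β) x q j) = 0 := by
          refine Finset.sum_eq_zero fun q _ => ?_
          have : ∑ j, conj (v α x j) * Tm (v β) x q j = 0 := h2 x hx β α q
          rw [this, map_zero, mul_zero]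
        rw [h0, add_zero]
      have e4 : Dvb (v β) (Dv (v α) f) x =
          ∑ q, ∑ j, v α x j * conj (v β x q) * cdb q (cd j f) x := by
        have : Dvb (v β) (Dv (v α) f) x =
            ∑ q, ∑ j, v α x j * conj (v β x q) * cdb q (cd j f) x +
            ∑ j, cd j f x * (∑ q, conj (v β x q) * Tm (v α) x j q) := by
          simp only [Dvb, e2, Finset.mul_sum, mul_add, Finset.sum_add_distrib]
          congr 1
          · exact Finset.sum_congr rfl fun j _ => Finset.sum_congr rfl fun q _ => by ring
          · rw [Finset.sum_comm]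
            exact Finset.sum_congr rfl fun j _ => Finset.sum_congr rfl fun q _ => by ring
        rw [this]
        have h0 : ∑ j, cd j f x * (∑ q, conj (v β x q) * Tm (v α) x j q) = 0 := by
          refine Finset.sum_eq_zero fun j _ => ?_
          have : ∑ q, conj (v β x q) * Tm (v α) x j q = 0 := h2 x hx α β j
          rw [this, mul_zero]
        rw [h0, add_zero]
      rw [e3, e4, Finset.sum_comm]
      exact Finset.sum_congr rfl fun q _ => Finset.sum_congr rfl fun j _ => by
        rw [(comm f hf j q x hx).2.2]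
    · have e2 : ∀ α β, Dv (v α) (Dv (v β) f) x =
          ∑ m, ∑ j, v α x m * v β x j * cd m (cd j f) x +
          ∑ j, cd j f x * Dv (v α) (fun y => v β y j) x := by
        intro α β
        have e1 : ∀ m, cd m (Dv (v β) f) x = ∑ j, (v β x j * cd m (cd j f) x +
            cd j f x * cd m (fun y => v β y j) x) := by
          intro m
          exact (cd_sum_mul hWIRT hO (fun j y => v β y j) (fun j y => cd j f y)
            (sv β) (fun j => scd f hf j) m hx).1
        have e5 : Dv (v α) (Dv (v β) f) x = ∑ m, v α x m * cd m (Dv (v β) f) x := rfl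
        rw [e5]
        simp only [e1, Finset.mul_sum, mul_add, Finset.sum_add_distrib]
        congr 1
        · exact Finset.sum_congr rfl fun m _ => Finset.sum_congr rfl fun j _ => by ring
        · rw [Finset.sum_comm]
          refine Finset.sum_congr rfl fun j _ => ?_
          simp only [Dv, Finset.mul_sum]
          exact Finset.sum_congr rfl fun m _ => by ring
      rw [e2 α β, e2 β α]
      congr 1
      · rw [Finset.sum_comm]
        refine Finset.sum_congr rfl fun m _ => Finset.sum_congr rfl fun j _ => ?_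
        rw [(comm f hf j m x hx).1]
        ring
      · exact Finset.sum_congr rfl fun j _ => by rw [h3 x hx α β j]
  · intro α β j l
    have e := h2' x hx α β j l
    rw [Finset.sum_add_distrib] at e
    rw [Matrix.mul_apply]
    refine Eq.trans ?_ (eq_neg_of_add_eq_zero_left e)
    exact Finset.sum_congr rfl fun m _ => by
      change conj (v β x m) * cdb m (cd l (fun y => v α y j)) x = _
      rw [(comm _ (sv α j) l m x hx).2.2]
  · intro α j q
    have e := (hker x hx α q j).1
    rw [Finset.sum_add_distrib, add_comm] at e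
    have e' : ∑ m, Bm (v α) x m j * LM Φ x m q = ∑ m, LM Φ x m q * cd j (fun y => v α y m) x :=
      Finset.sum_congr rfl fun m _ => mul_comm _ _
    rw [e']
    refine Eq.trans ?_ (eq_neg_of_add_eq_zero_left e)
    exact Finset.sum_congr rfl fun m _ => by rw [(hclos x hx j q m).1]

end Pool.Agent.Helper58.RK
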