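import Pool.Agent.Helper36.RK.GoalsG
import Pool.Agent.Helper16.RK.TriMap

/-! Packet RK TRF. -/

set_option autoImplicit false

open Complex Metric Set Filter Topology MeasureTheory Matrix
open scoped ContDiff ComplexConjugate ComplexOrder Manifold

namespace Pool.Agent.Helper58.RK

open Pool.Agent.Helper95.Lin Pool.Agent.Helper16.Abund Pool.Agent.Helper92.Orb Pool.Agent.Helper10.SP
  Pool.Agent.Helper95.RK Pool.Agent.Helper36.RK

theorem hermi_sum {k m : ℕ} (A : Matrix (Fin k) (Fin k) ℂ) (a b : Fin m → ℝ)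
    (u w : Fin m → Cn k) :
    hermi A (∑ p, ((a p : ℝ) : ℂ) • u p) (∑ q, ((b q : ℝ) : ℂ) • w q) =
      ∑ p, ∑ q, ((a p * b q : ℝ) : ℂ) * hermi A (u p) (w q) := by
  unfold hermi
  simp only [Finset.sum_apply, Pi.smul_apply, smul_eq_mul, map_sum, map_mul, Complex.conj_ofReal,
    Finset.mul_sum, Finset.sum_mul]
  -- left: sum over i j q p ; right: sum over p q i j
  have key : ∀ F : Fin k → Fin k → Fin m → Fin m → ℂ,
      ∑ i, ∑ j, ∑ q, ∑ p, F i j q p = ∑ p, ∑ q, ∑ i, ∑ j, F i j q p := by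
    intro F
    calc ∑ i, ∑ j, ∑ q, ∑ p, F i j q p = ∑ i, ∑ q, ∑ j, ∑ p, F i j q p :=
          Finset.sum_congr rfl fun i _ => Finset.sum_comm
      _ = ∑ q, ∑ i, ∑ j, ∑ p, F i j q p := Finset.sum_comm
      _ = ∑ q, ∑ i, ∑ p, ∑ j, F i j q p := Finset.sum_congr rfl fun q _ =>
          Finset.sum_congr rfl fun i _ => Finset.sum_comm
      _ = ∑ q, ∑ p, ∑ i, ∑ j, F i j q p := Finset.sum_congr rfl fun q _ => Finset.sum_comm
      _ = ∑ p, ∑ q, ∑ i, ∑ j, F i j q p := Finset.sum_comm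
  rw [key]
  refine Finset.sum_congr rfl fun p _ => Finset.sum_congr rfl fun q _ =>
    Finset.sum_congr rfl fun i _ => Finset.sum_congr rfl fun j _ => ?_
  push_cast
  ring

theorem trf : S_TRF := by
  intro b k N c R P Φ Hf C H hA hK lam U t hP z hz Q y hQ hy x j l
  obtain ⟨hU, -, ht, -⟩ := hA.holo U t hP
  have hbase : base (ptK z (Lx lam z x)) = z := base_ptK _ _
  have hmem : ptK z (Lx lam z x) ∈ tubeK k U := by
    show base _ ∈ U
    rw [hbase]; exact hz
  have h1 := hK.inv U t hP _ hmem (ptK 0 (lam j z)) (ptK 0 (lam l z))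
  have hf : ∀ u : Cn k, fderiv ℂ t.map (ptK z (Lx lam z x)) (ptK 0 u) = ptK 0 (t.A z *ᵥ u) := by
    intro u
    have := Pool.Agent.Helper16.RK.triMap_fib t hU ht (ptK z (Lx lam z x)) (by
      rw [hbase]; exact hz) (ptK 0 u) (base_ptK _ _)
    rw [hbase, fib_ptK] at this
    exact this
  have hm : t.map (ptK z (Lx lam z x)) = ptK (t.g z) (Lx lam (t.g z) (Q *ᵥ x + y)) := by
    unfold TriK.map
    rw [hbase, fib_ptK]
    congr 1
    unfold TriK.ap
    rw [← hy]
    unfold Lx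
    simp only [Pi.add_apply, Complex.ofReal_add, add_smul, Finset.sum_add_distrib]
    congr 1
    rw [Matrix.mulVec_sum]
    simp only [Matrix.mulVec_smul, hQ, Finset.smul_sum]
    rw [Finset.sum_comm]
    refine Finset.sum_congr rfl fun p _ => ?_
    simp only [Matrix.mulVec, dotProduct, Complex.ofReal_sum, Finset.sum_smul, smul_smul]
    refine Finset.sum_congr rfl fun q _ => ?_
    push_cast
    rw [mul_comm]
  rw [hf, hf, hm, hQ, hQ] at h1
  unfold fL
  rw [← h1, Pool.Agent.Helper16.RK.hermi_ptK, hermi_sum]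
  simp only [Pool.Agent.Helper16.RK.hermi_ptK, Complex.im_sum, Complex.im_ofReal_mul]

end Pool.Agent.Helper58.RK
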