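import Pool.Agent.Helper58.RK.Derv

/-! Packet RK DIVB. -/

set_option autoImplicit false

open Complex Metric Set Filter Topology MeasureTheory
open scoped ContDiff ComplexConjugate ComplexOrder Manifold Matrix

namespace Pool.Agent.Helper58.RK

open Pool.Agent.Helper95.Lin Pool.Agent.Helper16.Abund Pool.Agent.Helper92.Orb
  Pool.Agent.Helper10.SP Pool.Agent.Helper95.RK

section alg

variable {k : ℕ}

theorem tr_swap (A : Matrix (Fin k) (Fin k) ℂ) (Γ : Fin k → Matrix (Fin k) (Fin k) ℂ)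
    (hΓ : ∀ l j m, Γ l j m = Γ j l m) (q : Fin k) :
    ∑ l, (A * Γ l) q l = ∑ l, A q l * (Γ l).trace := by
  simp only [Matrix.mul_apply, Matrix.trace, Matrix.diag, Finset.mul_sum]
  rw [Finset.sum_comm]
  exact Finset.sum_congr rfl fun m _ => Finset.sum_congr rfl fun l _ => by rw [hΓ l m l]

theorem sum4 {α β γ δ : Type} [Fintype α] [Fintype β] [Fintype γ] [Fintype δ]
    (F : α → β → γ → δ → ℂ) :
    ∑ m, ∑ l, ∑ p, ∑ q, F m l p q = ∑ p, ∑ q, ∑ l, ∑ m, F m l p q := by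
  calc ∑ m, ∑ l, ∑ p, ∑ q, F m l p q = ∑ l, ∑ m, ∑ p, ∑ q, F m l p q := Finset.sum_comm
    _ = ∑ l, ∑ p, ∑ m, ∑ q, F m l p q := Finset.sum_congr rfl fun l _ => Finset.sum_comm
    _ = ∑ l, ∑ p, ∑ q, ∑ m, F m l p q := Finset.sum_congr rfl fun l _ =>
        Finset.sum_congr rfl fun p _ => Finset.sum_comm
    _ = ∑ p, ∑ l, ∑ q, ∑ m, F m l p q := Finset.sum_comm
    _ = _ := Finset.sum_congr rfl fun p _ => Finset.sum_comm

theorem algX (gi : Matrix (Fin k) (Fin k) ℂ) (c : Fin k → ℂ)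
    (X : Fin k → Fin k → Matrix (Fin k) (Fin k) ℂ) (j : Fin k) :
    ∑ p, ∑ l, c p * (gi * X p l) j l = ∑ p, ∑ q, c p * gi j q * ∑ l, X p l q l := by
  refine Finset.sum_congr rfl fun p _ => ?_
  simp only [Matrix.mul_apply, Finset.mul_sum]
  rw [Finset.sum_comm]
  exact Finset.sum_congr rfl fun q _ => Finset.sum_congr rfl fun l _ => by ring

theorem algZ (gi : Matrix (Fin k) (Fin k) ℂ) (Γ B : Fin k → Matrix (Fin k) (Fin k) ℂ)
    (dB : Fin k → Fin k → Matrix (Fin k) (Fin k) ℂ) (hΓ : ∀ l j m, Γ l j m = Γ j l m)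
    (hcov : ∀ p q, ∑ l, (dB p l q l - (Γ l * B p) q l + (B p * Γ l) q l -
      ∑ m, Γ l p m * B m q l) = 0) (i j : Fin k) :
    ∑ p, ∑ l, (gi i p * ((-(gi * Γ l)) * B p + gi * dB p l) j l +
      (gi * B p) j l * (-(gi * Γ l) i p + gi i p * (Γ l).trace)) = 0 := by
  have e1 := algX gi (fun p => gi i p) dB j
  have e2 := algX gi (fun p => gi i p) (fun p l => Γ l * B p) j
  have e3 := algX gi (fun p => gi i p) (fun p l => (Γ l).trace • B p) j
  have e4 : ∑ p, ∑ l, (gi * Γ l) i p * (gi * B p) j l =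
      ∑ p, ∑ q, gi i p * gi j q * ∑ l, ∑ m, Γ l p m * B m q l := by
    have e40 : ∀ m l, (gi * Γ l) i m * (gi * B m) j l =
        ∑ p, ∑ q, gi i p * Γ l p m * (gi j q * B m q l) := by
      intro m l
      rw [Matrix.mul_apply, Matrix.mul_apply, Finset.sum_mul_sum]
    rw [Finset.sum_congr rfl fun m _ => Finset.sum_congr rfl fun l _ => e40 m l]
    rw [sum4 (fun m l p q => gi i p * Γ l p m * (gi j q * B m q l))]
    simp only [Finset.mul_sum]
    exact Finset.sum_congr rfl fun p _ => Finset.sum_congr rfl fun q _ =>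
      Finset.sum_congr rfl fun l _ => Finset.sum_congr rfl fun m _ => by ring
  have e5 : ∑ p, ∑ l, (gi i p * ((-(gi * Γ l)) * B p + gi * dB p l) j l +
      (gi * B p) j l * (-(gi * Γ l) i p + gi i p * (Γ l).trace)) =
      ∑ p, ∑ l, gi i p * (gi * dB p l) j l - ∑ p, ∑ l, gi i p * (gi * (Γ l * B p)) j l +
      ∑ p, ∑ l, gi i p * (gi * (Γ l).trace • B p) j l -
      ∑ p, ∑ l, (gi * Γ l) i p * (gi * B p) j l := by
    simp only [← Finset.sum_sub_distrib, ← Finset.sum_add_distrib]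
    refine Finset.sum_congr rfl fun p _ => Finset.sum_congr rfl fun l _ => ?_
    rw [Matrix.neg_mul, Matrix.mul_assoc, Matrix.mul_smul, Matrix.add_apply, Matrix.neg_apply,
      Matrix.smul_apply, smul_eq_mul]
    ring
  rw [e5, e1, e2, e3, e4]
  simp only [← Finset.sum_sub_distrib, ← Finset.sum_add_distrib, ← mul_sub, ← mul_add]
  refine Finset.sum_eq_zero fun p _ => Finset.sum_eq_zero fun q _ => ?_
  have h1 := hcov p q
  have h2 := tr_swap (B p) Γ hΓ q
  have h3 : ∑ l, (dB p l q l - (Γ l * B p) q l + ((Γ l).trace • B p) q l -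
      ∑ m, Γ l p m * B m q l) = 0 := by
    rw [← h1]
    simp only [Finset.sum_sub_distrib, Finset.sum_add_distrib]
    rw [h2]
    congr 2
    exact Finset.sum_congr rfl fun l _ => by
      rw [Matrix.smul_apply, smul_eq_mul, mul_comm]
  rw [h3, mul_zero]

end alg

theorem divb (hWIRT : S_WIRT) (hSMQ : S_SMQ) (hSTRB : S_STRB) (hCOVB : S_COVB) : S_DIVB := by
  intro b k W Q Φ hA
  have hO := hA.isOpen
  obtain ⟨⟨hpd, smg, smT, smψ, smΓ, smK, smA, smB⟩, hpt⟩ := hSMQ W Q Φ hA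
  have hstr := hSTRB W Q Φ hA
  have hcov := hCOVB W Q Φ hA
  have Sg : SmM W (gq Q) := fun i j => (smg i j).1
  have Sgi : SmM W (fun y => (gq Q y)⁻¹) := fun i j => (smg i j).2
  have ST : SmM W (Thq Φ) := fun a c => (smT a c).1
  have STi : SmM W (fun y => (Thq Φ y)⁻¹) := fun a c => (smT a c).2
  have SK : ∀ a, SmM W (KKq Q a) := fun a j l => smK a j l
  have SB : ∀ a i, SmM W (BBq Q a i) := fun a i j l => smB a i j l
  have Smu : ContDiffOn ℝ ∞ (muq Q Φ) W := ST.det.mul Sg.det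
  have Sψ : ∀ a i m, ContDiffOn ℝ ∞
      (fun y => cd (Fin.natAdd b i) (fun z => conj (psq Q a m z)) y) W := fun a i m =>
    ((hWIRT W hO _ _ (conj_sm (smψ a m)) (conj_sm (smψ a m))).1 (Fin.natAdd b i)).1
  -- unit relations
  have hgg : ∀ y ∈ W, gq Q y * (gq Q y)⁻¹ = 1 ∧ (gq Q y)⁻¹ * gq Q y = 1 := fun y hy => by
    have h := (hpd y hy).1.isUnit
    exact ⟨Matrix.mul_nonsing_inv _ ((Matrix.isUnit_iff_isUnit_det _).1 h),
      Matrix.nonsing_inv_mul _ ((Matrix.isUnit_iff_isUnit_det _).1 h)⟩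
  have hTT : ∀ y ∈ W, Thq Φ y * (Thq Φ y)⁻¹ = 1 := fun y hy =>
    Matrix.mul_nonsing_inv _ ((Matrix.isUnit_iff_isUnit_det _).1 (hpd y hy).2.2.1.isUnit)
  -- reality
  have hmuc : ∀ y ∈ W, conj (muq Q Φ y) = muq Q Φ y := by
    intro y hy
    have h1 : star (Thq Φ y).det = (Thq Φ y).det := by
      rw [← Matrix.det_conjTranspose, (hpd y hy).2.2.1.isHermitian.eq]
    have h2 : star (gq Q y).det = (gq Q y).det := by
      rw [← Matrix.det_conjTranspose, (hpd y hy).1.isHermitian.eq]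
    show conj ((Thq Φ y).det * (gq Q y).det) = _
    rw [map_mul]
    exact congrArg₂ (· * ·) h1 h2
  have hgic : ∀ y ∈ W, ((gq Q y)⁻¹)ᴴ = (gq Q y)⁻¹ := fun y hy => (hpd y hy).2.1.isHermitian.eq
  -- the two fields
  have hY1 : ∀ i, ∀ y, Y1q Q Φ y (Fin.natAdd b i) = ∑ a, ∑ c, ∑ p,
      (muq Q Φ y * (gq Q y)⁻¹ p i) * ((Thq Φ y)⁻¹ a c *
        Matrix.trace (KKq Q a y * (BBq Q c p y)ᴴ * (gq Q y)⁻¹)) := by
    intro i y
    unfold Y1q
    rw [ptK_natAdd]
    simp only [Finset.mul_sum]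
    exact Finset.sum_congr rfl fun a _ => Finset.sum_congr rfl fun c _ =>
      Finset.sum_congr rfl fun p _ => by ring
  have hA2 : ∀ y ∈ W, ∀ a i m, cd (Fin.natAdd b i) (fun z => conj (psq Q a m z)) y =
      ∑ j, (gq Q y)⁻¹ m j * AAq Q a y i j := by
    intro y hy a i m
    have h1 : ∀ m', ∑ j, (gq Q y)⁻¹ m j * gq Q y j m' = (1 : Matrix (Fin k) (Fin k) ℂ) m m' := by
      intro m'
      rw [← (hgg y hy).2, Matrix.mul_apply]
    simp only [AAq, Matrix.of_apply, Finset.mul_sum]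
    rw [Finset.sum_comm]
    simp only [← mul_assoc, ← Finset.sum_mul, h1]
    rw [Finset.sum_eq_single m]
    · simp
    · intro m' _ hm
      rw [Matrix.one_apply_ne hm.symm, zero_mul]
    · intro h
      exact absurd (Finset.mem_univ m) h
  obtain ⟨Y', hY'⟩ : ∃ Y' : Fin k → Cn (b + k) → ℂ, ∀ l y, Y' l y =
      muq Q Φ y * ∑ a, ∑ c, ∑ p, ∑ i, ∑ m, (Thq Φ y)⁻¹ a c * (gq Q y)⁻¹ p i *
      (BBq Q c p y)ᴴ l m * cd (Fin.natAdd b i) (fun z => conj (psq Q a m z)) y := ⟨_, fun _ _ => rfl⟩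
  have hY2 : ∀ l y, Y2q Q Φ y (Fin.natAdd b l) = conj (Y' l y) := by
    intro l y
    unfold Y2q
    rw [ptK_natAdd, hY']
  obtain ⟨w, hw⟩ : ∃ w : Fin b → Fin k → Fin k → Fin k → Fin k → Cn (b + k) → ℂ,
      ∀ c p i l j y, w c p i l j y =
        muq Q Φ y * (gq Q y)⁻¹ p i * ((BBq Q c p y)ᴴ * (gq Q y)⁻¹) l j := ⟨_, fun _ _ _ _ _ _ => rfl⟩
  have hY'' : ∀ l, ∀ y ∈ W, Y' l y = ∑ a, ∑ c, ∑ p, ∑ i, ∑ j,
      (Thq Φ y)⁻¹ a c * w c p i l j y * AAq Q a y i j := by
    intro l y hy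
    rw [hY']
    simp only [Finset.mul_sum]
    refine Finset.sum_congr rfl fun a _ => Finset.sum_congr rfl fun c _ =>
      Finset.sum_congr rfl fun p _ => Finset.sum_congr rfl fun i _ => ?_
    simp only [hA2 y hy, hw, Matrix.mul_apply, Finset.mul_sum, Finset.sum_mul]
    rw [Finset.sum_comm]
    exact Finset.sum_congr rfl fun j _ => Finset.sum_congr rfl fun m _ => by ring
  have Sw : ∀ c p i l j, ContDiffOn ℝ ∞ (w c p i l j) W := by
    intro c p i l j
    have : w c p i l j = fun y => muq Q Φ y * (gq Q y)⁻¹ p i *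
        ((BBq Q c p y)ᴴ * (gq Q y)⁻¹) l j := funext fun y => hw c p i l j y
    rw [this]
    exact (Smu.mul (Sgi p i)).mul (((SB c p).conjT.mul Sgi) l j)
  have SY' : ∀ l, ContDiffOn ℝ ∞ (Y' l) W := by
    intro l
    have : ContDiffOn ℝ ∞ (fun y => ∑ a, ∑ c, ∑ p, ∑ i, ∑ j,
        (Thq Φ y)⁻¹ a c * w c p i l j y * AAq Q a y i j) W :=
      ContDiffOn.sum fun a _ => ContDiffOn.sum fun c _ => ContDiffOn.sum fun p _ =>
        ContDiffOn.sum fun i _ => ContDiffOn.sum fun j _ =>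
          ((STi a c).mul (Sw c p i l j)).mul (smA a i j)
    exact this.congr fun y hy => hY'' l y hy
  have St : ∀ a c p, ContDiffOn ℝ ∞ (fun y => (Thq Φ y)⁻¹ a c *
        Matrix.trace (KKq Q a y * (BBq Q c p y)ᴴ * (gq Q y)⁻¹)) W := fun a c p =>
    (STi a c).mul (((SK a).mul (SB c p).conjT).mul Sgi).trace
  refine ⟨?_, ?_, ?_⟩
  · refine contDiffOn_pi.2 fun j => ?_
    refine Fin.addCases (fun a => ?_) (fun i => ?_) j
    · have : (fun y => Y1q Q Φ y (Fin.castAdd k a)) = fun _ => (0 : ℂ) := by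
        funext y
        unfold Y1q
        rw [ptK_castAdd]
        rfl
      rw [this]
      exact contDiffOn_const
    · have : (fun y => Y1q Q Φ y (Fin.natAdd b i)) = _ := funext fun y => hY1 i y
      rw [this]
      exact ContDiffOn.sum fun a _ => ContDiffOn.sum fun c _ => ContDiffOn.sum fun p _ =>
        (Smu.mul (Sgi p i)).mul (St a c p)
  · refine contDiffOn_pi.2 fun j => ?_
    refine Fin.addCases (fun a => ?_) (fun i => ?_) j
    · have : (fun y => Y2q Q Φ y (Fin.castAdd k a)) = fun _ => (0 : ℂ) := by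
        funext y
        unfold Y2q
        rw [ptK_castAdd]
        rfl
      rw [this]
      exact contDiffOn_const
    · have : (fun y => Y2q Q Φ y (Fin.natAdd b i)) = fun y => conj (Y' i y) :=
        funext fun y => hY2 i y
      rw [this]
      exact conj_sm (SY' i)
  intro x hx
  obtain ⟨-, hTh, hdg, hΓf, hBtr, hBf⟩ := hpt x hx
  obtain ⟨Γ, hΓd⟩ : ∃ Γ : Fin k → Matrix (Fin k) (Fin k) ℂ, ∀ i, chrM (gq Q) i x = Γ i :=
    ⟨_, fun _ => rfl⟩
  have hΓs : ∀ l j m, Γ l j m = Γ j l m := fun l j m => by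
    rw [← hΓd, ← hΓd]; exact (hΓf l j l m).2
  have D := fun l : Fin k => isDer_cd hWIRT hO hx (Fin.natAdd b l)
  have Db := fun l : Fin k => isDer_cdb hWIRT hO hx (Fin.natAdd b l)
  -- derivatives
  have d1 : ∀ l : Fin k, dM (fun f => cd (Fin.natAdd b l) f x) (gq Q) = Γ l * gq Q x := by
    intro l
    ext i j
    rw [← hΓd]
    exact hdg l i j
  have d2 : ∀ l : Fin k, dM (fun f => cd (Fin.natAdd b l) f x) (fun y => (gq Q y)⁻¹) =
      -((gq Q x)⁻¹ * Γ l) := by
    intro l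
    rw [(D l).inv Sg Sgi (fun y hy => (hgg y hy).1), d1, Matrix.mul_assoc, Matrix.mul_assoc,
      (hgg x hx).1, Matrix.mul_one]
  have d3 : ∀ l : Fin k, dM (fun f => cd (Fin.natAdd b l) f x) (fun y => (Thq Φ y)⁻¹) = 0 := by
    intro l
    have : dM (fun f => cd (Fin.natAdd b l) f x) (Thq Φ) = 0 := by
      ext a c
      exact (hTh l a c).1
    rw [(D l).inv ST STi hTT, this, Matrix.mul_zero, Matrix.zero_mul, neg_zero]
  have d3b : ∀ l : Fin k, dM (fun f => cdb (Fin.natAdd b l) f x) (fun y => (Thq Φ y)⁻¹) = 0 := by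
    intro l
    have : dM (fun f => cdb (Fin.natAdd b l) f x) (Thq Φ) = 0 := by
      ext a c
      exact (hTh l a c).2
    rw [(Db l).inv ST STi hTT, this, Matrix.mul_zero, Matrix.zero_mul, neg_zero]
  have d4 : ∀ l : Fin k, cd (Fin.natAdd b l) (muq Q Φ) x = muq Q Φ x * (Γ l).trace := by
    intro l
    have e1 := (D l).mul _ _ ST.det Sg.det
    have e2 := (D l).det_mul Sg (Γ l) (d1 l)
    have e3 := (D l).det_mul ST 0 (by
      rw [Matrix.zero_mul]
      ext a c
      exact (hTh l a c).1)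
    rw [Matrix.trace_zero, mul_zero] at e3
    rw [e2, e3, mul_zero, add_zero] at e1
    refine e1.trans ?_
    show _ = (Thq Φ x).det * (gq Q x).det * (Γ l).trace
    ring
  have d5 : ∀ (l : Fin k) c p, dM (fun f => cd (Fin.natAdd b l) f x) (fun y => (BBq Q c p y)ᴴ) =
      0 := by
    intro l c p
    ext j m
    show cd (Fin.natAdd b l) (fun y => conj (BBq Q c p y m j)) x = 0
    rw [((hWIRT W hO _ _ (SB c p m j) (SB c p m j)).2.2.2.1 (Fin.natAdd b l) x hx).1,
      (hBf c p m l j).1, map_zero]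
  -- first divergence
  have f1 : ∀ i p, cd (Fin.natAdd b i) (fun y => muq Q Φ y * (gq Q y)⁻¹ p i) x =
      muq Q Φ x * (-((gq Q x)⁻¹ * Γ i) p i) + (gq Q x)⁻¹ p i * (muq Q Φ x * (Γ i).trace) := by
    intro i p
    have e1 := (D i).mul _ _ Smu (Sgi p i)
    have e2 : cd (Fin.natAdd b i) (fun y => (gq Q y)⁻¹ p i) x = -((gq Q x)⁻¹ * Γ i) p i := by
      have := congrFun (congrFun (d2 i) p) i
      exact this
    rw [d4, e2] at e1
    exact e1
  have f2 : ∀ p, ∑ i, (muq Q Φ x * (-((gq Q x)⁻¹ * Γ i) p i) +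
      (gq Q x)⁻¹ p i * (muq Q Φ x * (Γ i).trace)) = 0 := by
    intro p
    have := tr_swap (gq Q x)⁻¹ Γ hΓs p
    have e : ∑ i, (muq Q Φ x * (-((gq Q x)⁻¹ * Γ i) p i) +
      (gq Q x)⁻¹ p i * (muq Q Φ x * (Γ i).trace)) = muq Q Φ x *
        (∑ i, (gq Q x)⁻¹ p i * (Γ i).trace - ∑ i, ((gq Q x)⁻¹ * Γ i) p i) := by
      rw [← Finset.sum_sub_distrib, Finset.mul_sum]
      exact Finset.sum_congr rfl fun i _ => by ring
    rw [e, this, sub_self, mul_zero]
  have f3 : ∀ a c p i, cd (Fin.natAdd b i) (fun y => (Thq Φ y)⁻¹ a c *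
        Matrix.trace (KKq Q a y * (BBq Q c p y)ᴴ * (gq Q y)⁻¹)) x =
      (Thq Φ x)⁻¹ a c * Matrix.trace ((dM (fun f => cd (Fin.natAdd b i) f x) (KKq Q a) -
        Γ i * KKq Q a x) * (BBq Q c p x)ᴴ * (gq Q x)⁻¹) := by
    intro a c p i
    have e0 := (D i).mmul ((SK a).mul (SB c p).conjT) Sgi
    have e00 := (D i).mmul (SK a) (SB c p).conjT
    rw [d5, Matrix.mul_zero, add_zero] at e00
    rw [e00, d2] at e0
    have e1 := (D i).trace (((SK a).mul (SB c p).conjT).mul Sgi)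
    rw [e0] at e1
    have e2 := (D i).mul _ _ (STi a c) (((SK a).mul (SB c p).conjT).mul Sgi).trace
    have e3 : cd (Fin.natAdd b i) (fun y => (Thq Φ y)⁻¹ a c) x = 0 := by
      have := congrFun (congrFun (d3 i) a) c
      exact this
    refine e2.trans ?_
    rw [e1, e3, mul_zero, add_zero]
    congr 1
    rw [Matrix.sub_mul, Matrix.sub_mul, Matrix.trace_sub, Matrix.trace_add, sub_eq_add_neg]
    congr 1
    rw [Matrix.mul_neg, Matrix.trace_neg, ← Matrix.mul_assoc, Matrix.trace_mul_comm,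
      ← Matrix.mul_assoc, ← Matrix.mul_assoc]
  have S1 : ∑ l, cd l (fun y => Y1q Q Φ y l) x = ∑ a, ∑ c, ∑ i, ∑ p,
      (muq Q Φ x * (gq Q x)⁻¹ p i) * ((Thq Φ x)⁻¹ a c *
        Matrix.trace ((dM (fun f => cd (Fin.natAdd b i) f x) (KKq Q a) -
        Γ i * KKq Q a x) * (BBq Q c p x)ᴴ * (gq Q x)⁻¹)) := by
    rw [Fin.sum_univ_add]
    have g0 : ∑ a, cd (Fin.castAdd k a) (fun y => Y1q Q Φ y (Fin.castAdd k a)) x = 0 := by
      refine Finset.sum_eq_zero fun a _ => ?_
      have : (fun y => Y1q Q Φ y (Fin.castAdd k a)) = fun _ => (0 : ℂ) := by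
        funext y
        unfold Y1q
        rw [ptK_castAdd]
        rfl
      rw [this]
      exact (Pool.Agent.Helper83.SP.cd_const 0 _ x).1
    have g1 : ∀ i, cd (Fin.natAdd b i) (fun y => Y1q Q Φ y (Fin.natAdd b i)) x =
        ∑ a, ∑ c, ∑ p, ((muq Q Φ x * (gq Q x)⁻¹ p i) * ((Thq Φ x)⁻¹ a c *
        Matrix.trace ((dM (fun f => cd (Fin.natAdd b i) f x) (KKq Q a) -
        Γ i * KKq Q a x) * (BBq Q c p x)ᴴ * (gq Q x)⁻¹)) + ((Thq Φ x)⁻¹ a c *
        Matrix.trace (KKq Q a x * (BBq Q c p x)ᴴ * (gq Q x)⁻¹)) *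
        (muq Q Φ x * (-((gq Q x)⁻¹ * Γ i) p i) +
          (gq Q x)⁻¹ p i * (muq Q Φ x * (Γ i).trace))) := by
      intro i
      have : (fun y => Y1q Q Φ y (Fin.natAdd b i)) = _ := funext fun y => hY1 i y
      rw [this]
      rw [(D i).sum Finset.univ _ (fun a _ => ContDiffOn.sum fun c _ => ContDiffOn.sum fun p _ =>
        (Smu.mul (Sgi p i)).mul (St a c p))]
      refine Finset.sum_congr rfl fun a _ => ?_
      rw [(D i).sum Finset.univ _ (fun c _ => ContDiffOn.sum fun p _ =>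
        (Smu.mul (Sgi p i)).mul (St a c p))]
      refine Finset.sum_congr rfl fun c _ => ?_
      rw [(D i).sum Finset.univ _ (fun p _ => (Smu.mul (Sgi p i)).mul (St a c p))]
      refine Finset.sum_congr rfl fun p _ => ?_
      rw [← f3 a c p i, ← f1 i p]
      exact (D i).mul _ _ (Smu.mul (Sgi p i)) (St a c p)
    rw [g0, zero_add, Finset.sum_congr rfl fun i _ => g1 i]
    rw [Finset.sum_comm]
    refine Finset.sum_congr rfl fun a _ => ?_
    rw [Finset.sum_comm]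
    refine Finset.sum_congr rfl fun c _ => ?_
    simp only [Finset.sum_add_distrib]
    have g2 : ∑ i, ∑ p, ((Thq Φ x)⁻¹ a c *
        Matrix.trace (KKq Q a x * (BBq Q c p x)ᴴ * (gq Q x)⁻¹)) *
        (muq Q Φ x * (-((gq Q x)⁻¹ * Γ i) p i) +
          (gq Q x)⁻¹ p i * (muq Q Φ x * (Γ i).trace)) = 0 := by
      rw [Finset.sum_comm]
      refine Finset.sum_eq_zero fun p _ => ?_
      rw [← Finset.mul_sum, f2 p, mul_zero]
    rw [g2, add_zero]
  -- second divergence
  have w1 : ∀ c p i l j, conj (cdb (Fin.natAdd b l) (w c p i l j) x) =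
      muq Q Φ x * ((gq Q x)⁻¹ i p * ((-((gq Q x)⁻¹ * Γ l)) * BBq Q c p x +
        (gq Q x)⁻¹ * dM (fun f => cd (Fin.natAdd b l) f x) (BBq Q c p)) j l +
      ((gq Q x)⁻¹ * BBq Q c p x) j l * (-((gq Q x)⁻¹ * Γ l) i p +
        (gq Q x)⁻¹ i p * (Γ l).trace)) := by
    intro c p i l j
    have e1 := ((hWIRT W hO _ _ (Sw c p i l j) (Sw c p i l j)).2.2.2.1 (Fin.natAdd b l) x hx).1
    rw [← e1]
    have e2 : ∀ y ∈ W, conj (w c p i l j y) =
        muq Q Φ y * (gq Q y)⁻¹ i p * ((gq Q y)⁻¹ * BBq Q c p y) j l := by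
      intro y hy
      rw [hw, map_mul, map_mul, hmuc y hy]
      have h1 : conj ((gq Q y)⁻¹ p i) = (gq Q y)⁻¹ i p := by
        have := congrFun (congrFun (hgic y hy) i) p
        exact this
      have h2 : conj (((BBq Q c p y)ᴴ * (gq Q y)⁻¹) l j) = ((gq Q y)⁻¹ * BBq Q c p y) j l := by
        have h3 : ((BBq Q c p y)ᴴ * (gq Q y)⁻¹)ᴴ = (gq Q y)⁻¹ * BBq Q c p y := by
          rw [Matrix.conjTranspose_mul, hgic y hy, Matrix.conjTranspose_conjTranspose]
        rw [← h3]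
        rfl
      rw [h1, h2]
    have e3 := (D l).congr _ _ e2
    refine e3.trans ?_
    have e4 := (D l).mul _ _ (Smu.mul (Sgi i p)) ((Sgi.mul (SB c p)) j l)
    refine e4.trans ?_
    have e5 := (D l).mul _ _ Smu (Sgi i p)
    have e6 : cd (Fin.natAdd b l) (fun y => (gq Q y)⁻¹ i p) x = -((gq Q x)⁻¹ * Γ l) i p := by
      have := congrFun (congrFun (d2 l) i) p
      exact this
    have e7 := (D l).mmul Sgi (SB c p)
    rw [d2] at e7
    have e8 := congrFun (congrFun e7 j) l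
    have e9 : cd (Fin.natAdd b l) (fun y => ((gq Q y)⁻¹ * BBq Q c p y) j l) x =
      ((-((gq Q x)⁻¹ * Γ l)) * BBq Q c p x +
        (gq Q x)⁻¹ * dM (fun f => cd (Fin.natAdd b l) f x) (BBq Q c p)) j l := e8
    rw [e9, e5, e6, d4]
    ring
  have w2 : ∀ c i j, ∑ p, ∑ l, cdb (Fin.natAdd b l) (w c p i l j) x = 0 := by
    intro c i j
    have h1 : conj (∑ p, ∑ l, cdb (Fin.natAdd b l) (w c p i l j) x) = 0 := by
      simp only [map_sum, w1, ← Finset.mul_sum]
      rw [algZ (gq Q x)⁻¹ Γ (fun p => BBq Q c p x)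
        (fun p l => dM (fun f => cd (Fin.natAdd b l) f x) (BBq Q c p)) hΓs (fun p q => by
          have := hcov x hx c p q
          simp only [hΓd] at this
          exact this) i j, mul_zero]
    have h2 := congrArg conj h1
    rw [Complex.conj_conj, map_zero] at h2
    exact h2
  have S2 : conj (∑ l, cd l (fun y => Y2q Q Φ y l) x) = ∑ a, ∑ c, ∑ i, ∑ p, ∑ j, ∑ l,
      (Thq Φ x)⁻¹ a c * w c p i l j x * cdb (Fin.natAdd b l) (fun y => AAq Q a y i j) x := by
    rw [Fin.sum_univ_add]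
    have g0 : ∑ a, cd (Fin.castAdd k a) (fun y => Y2q Q Φ y (Fin.castAdd k a)) x = 0 := by
      refine Finset.sum_eq_zero fun a _ => ?_
      have : (fun y => Y2q Q Φ y (Fin.castAdd k a)) = fun _ => (0 : ℂ) := by
        funext y
        unfold Y2q
        rw [ptK_castAdd]
        rfl
      rw [this]
      exact (Pool.Agent.Helper83.SP.cd_const 0 _ x).1
    have g1 : ∀ l, conj (cd (Fin.natAdd b l) (fun y => Y2q Q Φ y (Fin.natAdd b l)) x) =
        ∑ a, ∑ c, ∑ p, ∑ i, ∑ j, ((Thq Φ x)⁻¹ a c * w c p i l j x *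
          cdb (Fin.natAdd b l) (fun y => AAq Q a y i j) x + AAq Q a x i j *
          ((Thq Φ x)⁻¹ a c * cdb (Fin.natAdd b l) (w c p i l j) x)) := by
      intro l
      have : (fun y => Y2q Q Φ y (Fin.natAdd b l)) = fun y => conj (Y' l y) :=
        funext fun y => hY2 l y
      rw [this, ((hWIRT W hO _ _ (SY' l) (SY' l)).2.2.2.1 (Fin.natAdd b l) x hx).1,
        Complex.conj_conj]
      have e0 := (Db l).congr (Y' l) _ (fun y hy => hY'' l y hy)
      refine e0.trans ?_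
      have sm : ∀ a c p i j, ContDiffOn ℝ ∞ (fun y => (Thq Φ y)⁻¹ a c * w c p i l j y *
          AAq Q a y i j) W := fun a c p i j =>
        ((STi a c).mul (Sw c p i l j)).mul (smA a i j)
      refine ((Db l).sum Finset.univ _ (fun a _ => ContDiffOn.sum fun c _ =>
        ContDiffOn.sum fun p _ => ContDiffOn.sum fun i _ => ContDiffOn.sum fun j _ =>
          sm a c p i j)).trans ?_
      refine Finset.sum_congr rfl fun a _ => ?_
      refine ((Db l).sum Finset.univ _ (fun c _ =>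
        ContDiffOn.sum fun p _ => ContDiffOn.sum fun i _ => ContDiffOn.sum fun j _ =>
          sm a c p i j)).trans ?_
      refine Finset.sum_congr rfl fun c _ => ?_
      refine ((Db l).sum Finset.univ _ (fun p _ => ContDiffOn.sum fun i _ =>
        ContDiffOn.sum fun j _ => sm a c p i j)).trans ?_
      refine Finset.sum_congr rfl fun p _ => ?_
      refine ((Db l).sum Finset.univ _ (fun i _ =>
        ContDiffOn.sum fun j _ => sm a c p i j)).trans ?_
      refine Finset.sum_congr rfl fun i _ => ?_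
      refine ((Db l).sum Finset.univ _ (fun j _ => sm a c p i j)).trans ?_
      refine Finset.sum_congr rfl fun j _ => ?_
      refine ((Db l).mul _ _ ((STi a c).mul (Sw c p i l j)) (smA a i j)).trans ?_
      have e1 := (Db l).mul _ _ (STi a c) (Sw c p i l j)
      have e3 : cdb (Fin.natAdd b l) (fun y => (Thq Φ y)⁻¹ a c) x = 0 := by
        have := congrFun (congrFun (d3b l) a) c
        exact this
      rw [e3, mul_zero, add_zero] at e1
      rw [e1]
    rw [map_add, g0, map_zero, zero_add, map_sum, Finset.sum_congr rfl fun l _ => g1 l]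
    rw [Finset.sum_comm]
    refine Finset.sum_congr rfl fun a _ => ?_
    rw [Finset.sum_comm]
    refine Finset.sum_congr rfl fun c _ => ?_
    -- sum over l, p, i, j
    have g2 : ∀ F : Fin k → Fin k → Fin k → Fin k → ℂ,
        ∑ l, ∑ p, ∑ i, ∑ j, F l p i j = ∑ i, ∑ j, ∑ p, ∑ l, F l p i j := fun F => sum4 F
    have g3 : ∀ F : Fin k → Fin k → Fin k → Fin k → ℂ,
        ∑ l, ∑ p, ∑ i, ∑ j, F l p i j = ∑ i, ∑ p, ∑ j, ∑ l, F l p i j := by
      intro F
      rw [g2]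
      exact Finset.sum_congr rfl fun i _ => Finset.sum_comm
    simp only [Finset.sum_add_distrib]
    have g4 : ∑ l, ∑ p, ∑ i, ∑ j, AAq Q a x i j *
          ((Thq Φ x)⁻¹ a c * cdb (Fin.natAdd b l) (w c p i l j) x) = 0 := by
      rw [g2]
      refine Finset.sum_eq_zero fun i _ => Finset.sum_eq_zero fun j _ => ?_
      simp only [← Finset.mul_sum]
      rw [w2, mul_zero, mul_zero]
    rw [g4, add_zero, g3]
  rw [S1, S2]
  simp only [← Finset.sum_add_distrib]
  unfold NBq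
  simp only [Finset.mul_sum]
  refine Finset.sum_congr rfl fun a _ => Finset.sum_congr rfl fun c _ =>
    Finset.sum_congr rfl fun i _ => Finset.sum_congr rfl fun p _ => ?_
  have h1 : Matrix.trace (BBq Q a i x * gq Q x * (BBq Q c p x)ᴴ * (gq Q x)⁻¹) =
      Matrix.trace ((dM (fun f => cd (Fin.natAdd b i) f x) (KKq Q a) -
        Γ i * KKq Q a x) * (BBq Q c p x)ᴴ * (gq Q x)⁻¹) +
      ∑ j, ∑ l, ((BBq Q c p x)ᴴ * (gq Q x)⁻¹) l j *
        cdb (Fin.natAdd b l) (fun y => AAq Q a y i j) x := by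
    rw [Matrix.mul_assoc (BBq Q a i x * gq Q x), Matrix.mul_assoc _ (BBq Q c p x)ᴴ]
    simp only [Matrix.trace, Matrix.diag]
    rw [← Finset.sum_add_distrib]
    refine Finset.sum_congr rfl fun j _ => ?_
    rw [Matrix.mul_apply, Matrix.mul_apply, ← Finset.sum_add_distrib]
    refine Finset.sum_congr rfl fun l _ => ?_
    rw [hstr x hx a i j l, hΓd]
    show _ = (cd (Fin.natAdd b i) (fun y => KKq Q a y j l) x - (Γ i * KKq Q a x) j l) * _ + _
    ring
  rw [h1]
  simp only [hw]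
  rw [mul_add, mul_add]
  congr 1
  · ring
  · simp only [Finset.mul_sum]
    exact Finset.sum_congr rfl fun j _ => Finset.sum_congr rfl fun l _ => by ring

end Pool.Agent.Helper58.RK
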