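import Pool.Agent.Helper10.RK.GoalsH
import Pool.Agent.Helper58.RK.DIVB

/-! Packet RK FDIV. -/

set_option autoImplicit false

open Complex Metric Set Filter Topology MeasureTheory
open scoped ContDiff ComplexConjugate ComplexOrder Manifold Matrix

namespace Pool.Agent.Helper58.RK

open Pool.Agent.Helper95.Lin Pool.Agent.Helper16.Abund Pool.Agent.Helper92.Orb
  Pool.Agent.Helper10.SP Pool.Agent.Helper95.RK Pool.Agent.Helper10.RK

theorem SmM.adj {n p : ℕ} {W : Set (Cn n)} {F : Cn n → Matrix (Fin p) (Fin p) ℂ}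
    (hF : SmM W F) : SmM W (fun y => (F y).adjugate) := by
  intro k j
  simp only [Matrix.adjugate_apply, Matrix.det_apply']
  refine ContDiffOn.sum fun σ _ => ?_
  refine contDiffOn_const.mul (contDiffOn_prod fun i _ => ?_)
  by_cases hi : σ i = j
  · rw [hi]
    simp only [Matrix.updateRow_self]
    exact contDiffOn_const
  · simp only [Matrix.updateRow_ne hi]
    exact hF _ _

theorem SmM.inv {n p : ℕ} {W : Set (Cn n)} {F : Cn n → Matrix (Fin p) (Fin p) ℂ}
    (hF : SmM W F) (h : ∀ y ∈ W, (F y).det ≠ 0) : SmM W (fun y => (F y)⁻¹) := by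
  intro i j
  have h1 : ContDiffOn ℝ ∞ (fun y => ((F y).det)⁻¹) W := hF.det.inv h
  have : (fun y => (F y)⁻¹ i j) = fun y => ((F y).det)⁻¹ * (F y).adjugate i j := by
    funext y
    rw [Matrix.inv_def, Ring.inverse_eq_inv', Matrix.smul_apply, smul_eq_mul]
  rw [this]
  exact h1.mul (hF.adj i j)

variable {b k : ℕ}

theorem fderiv_base {f : Cn b → ℂ} {x : Cn (b + k)} (hf : DifferentiableAt ℝ f (base x))
    (v : Cn (b + k)) :
    fderiv ℝ (fun y : Cn (b + k) => f (base y)) x v = fderiv ℝ f (base x) (base v) := by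
  have h1 : HasFDerivAt (fun y : Cn (b + k) => base y) ((bsL b k).restrictScalars ℝ) x :=
    ((bsL b k).restrictScalars ℝ).hasFDerivAt
  have h2 : HasFDerivAt (fun y : Cn (b + k) => f (base y))
      ((fderiv ℝ f (base x)).comp ((bsL b k).restrictScalars ℝ)) x := hf.hasFDerivAt.comp x h1
  rw [h2.fderiv]
  rfl

theorem base_single_cast (j : Fin b) (c : ℂ) :
    base (Pi.single (Fin.castAdd k j) c : Cn (b + k)) = Pi.single j c := by
  funext i
  by_cases h : i = j
  · subst h; simp [base]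
  · have h' : Fin.castAdd k i ≠ Fin.castAdd k j := by
      intro h2; apply h; simpa using h2
    simp [base, h]

theorem base_single_nat (j : Fin k) (c : ℂ) :
    base (Pi.single (Fin.natAdd b j) c : Cn (b + k)) = 0 := by
  funext i
  have h' : Fin.castAdd k i ≠ Fin.natAdd b j := by
    intro h2
    have h3 := congrArg Fin.val h2
    simp at h3
    omega
  simp [base, h']

theorem cd_base_cast {f : Cn b → ℂ} {x : Cn (b + k)} (hf : DifferentiableAt ℝ f (base x))
    (j : Fin b) :
    cd (Fin.castAdd k j) (fun y : Cn (b + k) => f (base y)) x = cd j f (base x) := by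
  unfold cd
  rw [fderiv_base hf, fderiv_base hf, base_single_cast, base_single_cast]

theorem cd_base_nat {f : Cn b → ℂ} {x : Cn (b + k)} (hf : DifferentiableAt ℝ f (base x))
    (i : Fin k) : cd (Fin.natAdd b i) (fun y : Cn (b + k) => f (base y)) x = 0 := by
  unfold cd
  rw [fderiv_base hf, fderiv_base hf, base_single_nat, base_single_nat, map_zero]
  simp

theorem fdiv (hWIRT : S_WIRT) : S_FDIV := by
  intro b k D H hD hpos hsm hcl X hX x hx
  obtain ⟨W, hW⟩ : ∃ W, W = tubeK k D := ⟨_, rfl⟩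
  have hO : IsOpen W := by rw [hW]; exact isOpen_tubeK hD
  rw [← hW] at hpos hsm hcl hx
  have hxD : base x ∈ D := by rw [hW] at hx; exact hx
  -- the fibre block
  obtain ⟨F, hF⟩ : ∃ F : Cn (b + k) → Matrix (Fin k) (Fin k) ℂ, ∀ y, fbl (H y) = F y :=
    ⟨_, fun _ => rfl⟩
  have hFe : ∀ y i l, F y i l = H y (Fin.natAdd b i) (Fin.natAdd b l) := fun y i l => by
    rw [← hF]; rfl
  simp only [hF]
  have SF : SmM W F := by
    intro i l
    have : (fun y => F y i l) = fun y => H y (Fin.natAdd b i) (Fin.natAdd b l) :=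
      funext fun y => hFe y i l
    rw [this]
    exact hsm _ _
  have hFp : ∀ y ∈ W, (F y).PosDef := by
    intro y hy
    rw [← hF]
    exact (hpos y hy).submatrix (fun i j h => by simpa using h)
  have hFu : ∀ y ∈ W, IsUnit (F y).det := fun y hy =>
    (Matrix.isUnit_iff_isUnit_det _).1 (hFp y hy).isUnit
  have hFi : ∀ y ∈ W, F y * (F y)⁻¹ = 1 := fun y hy => Matrix.mul_nonsing_inv _ (hFu y hy)
  have SK : SmM W (fun y => (F y)⁻¹) := SF.inv fun y hy => (hFu y hy).ne_zero
  have SX : ∀ j, ContDiffOn ℝ ∞ (fun y : Cn (b + k) => X (base y) j) W := by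
    intro j
    have h1 : ContDiffOn ℝ ∞ (fun z => X z j) D := contDiffOn_pi.1 hX j
    have h2 : ContDiff ℝ ∞ (fun y : Cn (b + k) => base y) :=
      ((bsL b k).restrictScalars ℝ).contDiff
    refine h1.comp h2.contDiffOn ?_
    rw [hW]
    intro y hy
    exact hy
  have dX : ∀ j, DifferentiableAt ℝ (fun z => X z j) (base x) := fun j =>
    ((contDiffOn_pi.1 hX j).contDiffAt (hD.mem_nhds hxD)).differentiableAt (by simp)
  have DC := fun l : Fin (b + k) => isDer_cd hWIRT hO hx l
  -- the derivatives of `F`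
  obtain ⟨Γ, hΓ⟩ : ∃ Γ : Fin (b + k) → Matrix (Fin k) (Fin k) ℂ,
      ∀ l, dM (fun f => cd l f x) F * (F x)⁻¹ = Γ l := ⟨_, fun _ => rfl⟩
  have hKF : (F x)⁻¹ * F x = 1 := Matrix.nonsing_inv_mul _ (hFu x hx)
  have d1 : ∀ l, dM (fun f => cd l f x) F = Γ l * F x := by
    intro l
    rw [← hΓ, Matrix.mul_assoc, hKF, Matrix.mul_one]
  have d2 : ∀ l, dM (fun f => cd l f x) (fun y => (F y)⁻¹) = -((F x)⁻¹ * Γ l) := by
    intro l
    rw [(DC l).inv SF SK hFi, d1, Matrix.mul_assoc, Matrix.mul_assoc, hFi x hx, Matrix.mul_one]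
  have d3 : ∀ l, cd l (fun y => (F y).det) x = (F x).det * (Γ l).trace := fun l =>
    (DC l).det_mul SF (Γ l) (d1 l)
  have hΓs : ∀ l j m : Fin k, Γ (Fin.natAdd b l) j m = Γ (Fin.natAdd b j) l m := by
    intro l j m
    rw [← hΓ, ← hΓ, Matrix.mul_apply, Matrix.mul_apply]
    refine Finset.sum_congr rfl fun q _ => ?_
    congr 1
    show cd (Fin.natAdd b l) (fun y => F y j q) x = cd (Fin.natAdd b j) (fun y => F y l q) x
    simp only [hFe]
    exact hcl x hx _ _ _
  -- the divergence of `det F * F⁻¹`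
  have f1 : ∀ (i l : Fin k), cd (Fin.natAdd b i) (fun y => (F y).det * (F y)⁻¹ l i) x =
      (F x).det * (-((F x)⁻¹ * Γ (Fin.natAdd b i)) l i) +
        (F x)⁻¹ l i * ((F x).det * (Γ (Fin.natAdd b i)).trace) := by
    intro i l
    have e1 := (DC (Fin.natAdd b i)).mul _ _ SF.det (SK l i)
    have e2 : cd (Fin.natAdd b i) (fun y => (F y)⁻¹ l i) x =
        -((F x)⁻¹ * Γ (Fin.natAdd b i)) l i := by
      have := congrFun (congrFun (d2 (Fin.natAdd b i)) l) i
      exact this
    rw [d3, e2] at e1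
    exact e1
  have f2 : ∀ l : Fin k, ∑ i, cd (Fin.natAdd b i) (fun y => (F y).det * (F y)⁻¹ l i) x = 0 := by
    intro l
    have h1 := tr_swap (F x)⁻¹ (fun i => Γ (Fin.natAdd b i)) hΓs l
    have e : ∑ i, cd (Fin.natAdd b i) (fun y => (F y).det * (F y)⁻¹ l i) x = (F x).det *
        (∑ i, (F x)⁻¹ l i * (Γ (Fin.natAdd b i)).trace -
          ∑ i, ((F x)⁻¹ * Γ (Fin.natAdd b i)) l i) := by
      rw [← Finset.sum_sub_distrib, Finset.mul_sum]
      exact Finset.sum_congr rfl fun i _ => by rw [f1]; ring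
    rw [e, h1, sub_self, mul_zero]
  -- the base part
  rw [Fin.sum_univ_add]
  simp only [ptK_castAdd, ptK_natAdd]
  have g1 : ∀ j : Fin b, cd (Fin.castAdd k j) (fun y => (F y).det * X (base y) j) x =
      (F x).det * cd j (fun z => X z j) (base x) +
        X (base x) j * ((F x).det * (Γ (Fin.castAdd k j)).trace) := by
    intro j
    have e1 := (DC (Fin.castAdd k j)).mul _ _ SF.det (SX j)
    rw [d3, cd_base_cast (dX j)] at e1
    exact e1
  -- the fibre part
  have sm : ∀ (i : Fin k) (j : Fin b) (l : Fin k), ContDiffOn ℝ ∞ (fun y =>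
      (X (base y) j * H y (Fin.castAdd k j) (Fin.natAdd b l)) *
        ((F y).det * (F y)⁻¹ l i)) W := fun i j l =>
    ((SX j).mul (hsm _ _)).mul (SF.det.mul (SK l i))
  have g2 : ∀ i : Fin k, cd (Fin.natAdd b i) (fun y => -(F y).det * ∑ j : Fin b, ∑ l : Fin k,
      X (base y) j * H y (Fin.castAdd k j) (Fin.natAdd b l) * (F y)⁻¹ l i) x =
      -∑ j : Fin b, ∑ l : Fin k, (X (base x) j * H x (Fin.castAdd k j) (Fin.natAdd b l) *
        cd (Fin.natAdd b i) (fun y => (F y).det * (F y)⁻¹ l i) x +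
        X (base x) j * ((F x).det * (dM (fun f => cd (Fin.castAdd k j) f x) F i l *
          (F x)⁻¹ l i))) := by
    intro i
    have e0 : (fun y => -(F y).det * ∑ j : Fin b, ∑ l : Fin k,
        X (base y) j * H y (Fin.castAdd k j) (Fin.natAdd b l) * (F y)⁻¹ l i) =
        fun y => (-1) * ∑ j : Fin b, ∑ l : Fin k,
          (X (base y) j * H y (Fin.castAdd k j) (Fin.natAdd b l)) *
          ((F y).det * (F y)⁻¹ l i) := by
      funext y
      simp only [Finset.mul_sum]
      exact Finset.sum_congr rfl fun j _ => Finset.sum_congr rfl fun l _ => by ring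
    rw [e0]
    refine ((DC (Fin.natAdd b i)).cmul (-1) _ (ContDiffOn.sum fun j _ =>
      ContDiffOn.sum fun l _ => sm i j l)).trans ?_
    rw [neg_one_mul]
    congr 1
    refine ((DC (Fin.natAdd b i)).sum Finset.univ _ (fun j _ =>
      ContDiffOn.sum fun l _ => sm i j l)).trans ?_
    refine Finset.sum_congr rfl fun j _ => ?_
    refine ((DC (Fin.natAdd b i)).sum Finset.univ _ (fun l _ => sm i j l)).trans ?_
    refine Finset.sum_congr rfl fun l _ => ?_
    refine ((DC (Fin.natAdd b i)).mul _ _ ((SX j).mul (hsm _ _))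
      (SF.det.mul (SK l i))).trans ?_
    have e1 := (DC (Fin.natAdd b i)).mul _ _ (SX j) (hsm (Fin.castAdd k j) (Fin.natAdd b l))
    have e2 : cd (Fin.natAdd b i) (fun y => H y (Fin.castAdd k j) (Fin.natAdd b l)) x =
        dM (fun f => cd (Fin.castAdd k j) f x) F i l := by
      show _ = cd (Fin.castAdd k j) (fun y => F y i l) x
      simp only [hFe]
      exact hcl x hx _ _ _
    rw [cd_base_nat (dX j), mul_zero, add_zero, e2] at e1
    rw [e1]
    ring
  rw [Finset.sum_congr rfl fun j _ => g1 j, Finset.sum_congr rfl fun i _ => g2 i]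
  simp only [Finset.sum_add_distrib, Finset.sum_neg_distrib]
  have g3 : ∑ i : Fin k, ∑ j : Fin b, ∑ l : Fin k,
      X (base x) j * H x (Fin.castAdd k j) (Fin.natAdd b l) *
        cd (Fin.natAdd b i) (fun y => (F y).det * (F y)⁻¹ l i) x = 0 := by
    rw [Finset.sum_comm]
    refine Finset.sum_eq_zero fun j _ => ?_
    rw [Finset.sum_comm]
    refine Finset.sum_eq_zero fun l _ => ?_
    rw [← Finset.mul_sum, f2, mul_zero]
  have g4 : ∑ i : Fin k, ∑ j : Fin b, ∑ l : Fin k, X (base x) j *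
      ((F x).det * (dM (fun f => cd (Fin.castAdd k j) f x) F i l * (F x)⁻¹ l i)) =
      ∑ j, X (base x) j * ((F x).det * (Γ (Fin.castAdd k j)).trace) := by
    rw [Finset.sum_comm]
    refine Finset.sum_congr rfl fun j _ => ?_
    rw [← hΓ]
    simp only [Matrix.trace, Matrix.diag, Matrix.mul_apply, Finset.mul_sum]
  rw [g3, g4, zero_add, Finset.mul_sum]
  ring

end Pool.Agent.Helper58.RK
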