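import Pool.Agent.Helper45.RK.GoalsJ
import Pool.Agent.Helper19.Lin.IDT

/-! Packet RK FIBGK: the fibre group acts properly and cocompactly. -/

set_option autoImplicit false

open Complex Metric Set Filter Topology
open scoped ContDiff ComplexConjugate Matrix ComplexOrder

namespace Pool.Agent.Helper58.RK

open Pool.Agent.Helper95.Lin Pool.Agent.Helper10.SP Pool.Agent.Helper95.RK Pool.Agent.Helper45.SP
  Pool.Agent.Helper45.RK

section fibgk

variable {b k N : ℕ} {c : Fin N → Cn b} {R : ℝ} {P : Set (Cn b) → TriK b k → Prop}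
  {Φ : Cn b → ℝ} {Hf : Cn b → Matrix (Fin k) (Fin k) ℂ} {C : ℝ}

theorem ballK_sub (hA : AFolK c R P Φ Hf C) (i : Fin N) : ball (c i) 4 ⊆ Bd c R := by
  intro y hy
  have h1 := hA.Rge
  have h2 := hA.Cge
  exact mem_iUnion.2 ⟨i, ball_subset_ball (by linarith) hy⟩

theorem ballK24 (i : Fin N) : ball (c i) 2 ⊆ ball (c i) 4 := ball_subset_ball (by norm_num)

theorem ballK2_Bd (i : Fin N) : ball (c i) 2 ⊆ Bd c 2 := fun _ hy => mem_iUnion.2 ⟨i, hy⟩

/-- If a map over the ball is trivial on the base near a point, it is trivial on the ball. -/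
theorem fixK_of_germ (hA : AFolK c R P Φ Hf C) {i : Fin N} {t : TriK b k}
    (h : P (ball (c i) 4) t) {z : Cn b} (hz : z ∈ ball (c i) 4)
    (hg : ∀ᶠ y in 𝓝 z, t.g y = y) : FixK c P i t := by
  refine ⟨h, ?_⟩
  have h1 : DifferentiableOn ℂ (fun y => t.g y - y) (ball (c i) 4) :=
    (hA.holo _ t h).2.2.1.1.sub differentiableOn_id
  intro y hy
  have h2 := Pool.Agent.Helper19.Lin.idt (ball (c i) 4) isOpen_ball
    (convex_ball (c i) 4).isPreconnected (fun y => t.g y - y) h1 z hz (by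
      filter_upwards [hg] with w hw
      rw [hw, sub_self]) y hy
  exact sub_eq_zero.1 h2

theorem cocK (hA : AFolK c R P Φ Hf C) {n : Fin N → ℕ} {s : ∀ i, Fin (n i) → TriK b k}
    (hG : GClK c P n s) {i : Fin N} {z : Cn b} (hz : z ∈ ball (c i) 2) :
    ∃ r : ℝ, ∀ w : Cn k, ∃ t, FixK c P i t ∧ ‖t.A z *ᵥ w + t.β z‖ ≤ r := by
  classical
  have hz4 := ballK24 i hz
  have hzR : z ∈ Bd c R := ballK_sub hA i hz4
  have h1 : ∀ w : Cn k, ∃ t : TriK b k, BigK c P i t ∧ t.g z ∈ Bd c 1 ∧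
      ‖t.A z *ᵥ w + t.β z‖ < 1 ∧ ∃ l, ∀ y ∈ ball (c i) 4, t.g y = (s i l).g y := by
    intro w
    obtain ⟨U, t, h1, h2, h3, h4⟩ := hA.coc z hzR w
    have h3' : t.g z ∈ Bd c 2 := by
      obtain ⟨j, hj⟩ := mem_iUnion.1 h3
      exact mem_iUnion.2 ⟨j, ball_subset_ball (by norm_num) hj⟩
    obtain ⟨t', U', k1, k2, k3, k4, k5⟩ := hA.ext i z hz U t h1 h2 h3'
    obtain ⟨e1, e2, e3⟩ := k5 z k3
    have hB : BigK c P i t' := ⟨k1, z, hz, by rw [e1]; exact h3'⟩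
    exact ⟨t', hB, by rw [e1]; exact h3, by rw [e2, e3]; exact h4, hG.cov i t' hB⟩
  choose q hq1 hq2 hq3 κ hκ using h1
  have h2 : ∀ l : Fin (n i), ∃ (B : ℝ), ∀ w, κ w = l → ∃ t, FixK c P i t ∧
      ‖t.A z *ᵥ w + t.β z‖ ≤ B := by
    intro l
    by_cases hk : ∃ w₀, κ w₀ = l
    · obtain ⟨w₀, hw₀⟩ := hk
      obtain ⟨r, U', U'', a1, a2, a3, a4, a5, a6, a7⟩ := hA.inv _ (q w₀) (hq1 w₀).1 z hz4
      obtain ⟨D, hD0, hD⟩ : ∃ D : ℝ, 0 ≤ D ∧ MB (r.A ((q w₀).g z)) D := by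
        have hE : ∀ i' j', ‖r.A ((q w₀).g z) i' j'‖ ≤
            ∑ i', ∑ j', ‖r.A ((q w₀).g z) i' j'‖ := by
          intro i' j'
          refine (Finset.single_le_sum (f := fun j' => ‖r.A ((q w₀).g z) i' j'‖)
            (fun _ _ => norm_nonneg _) (Finset.mem_univ j')).trans ?_
          exact Finset.single_le_sum (f := fun i' => ∑ j', ‖r.A ((q w₀).g z) i' j'‖)
            (fun _ _ => Finset.sum_nonneg fun _ _ => norm_nonneg _) (Finset.mem_univ i')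
        exact ⟨_, by positivity, MB.of_entry hE⟩
      refine ⟨D + ‖r.β ((q w₀).g z)‖, ?_⟩
      intro w hw
      have hgg : ∀ y ∈ ball (c i) 4, (q w).g y = (q w₀).g y := by
        intro y hy
        rw [hκ w y hy, hκ w₀ y hy, hw, hw₀]
      have hcomp : P U'' (r.comp (q w)) := by
        refine hA.comp _ _ _ r (q w) a1 (hq1 w).1 a3 a5 ?_
        intro y hy
        rw [hgg y (a5 hy)]
        exact a6 hy
      have hid : ∀ y ∈ U'', (r.comp (q w)).g y = y := by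
        intro y hy
        show r.g ((q w).g y) = y
        rw [hgg y (a5 hy)]
        exact (a7 y hy).1
      obtain ⟨t, V, k1, k2, k3, k4, k5⟩ := hA.ext i z hz U'' _ hcomp a4 (by
        rw [hid z a4]; exact ballK2_Bd i hz)
      refine ⟨t, fixK_of_germ hA k1 hz4 ?_, ?_⟩
      · filter_upwards [k2.mem_nhds k3] with y hy
        rw [(k5 y hy).1]
        exact hid y (k4 hy)
      · obtain ⟨-, e2, e3⟩ := k5 z k3
        rw [e2, e3]
        show ‖(r.A ((q w).g z) * (q w).A z) *ᵥ w + (r.A ((q w).g z) *ᵥ (q w).β z +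
          r.β ((q w).g z))‖ ≤ _
        rw [hgg z hz4]
        have e4 : (r.A ((q w₀).g z) * (q w).A z) *ᵥ w + (r.A ((q w₀).g z) *ᵥ (q w).β z +
          r.β ((q w₀).g z)) = r.A ((q w₀).g z) *ᵥ ((q w).A z *ᵥ w + (q w).β z) +
          r.β ((q w₀).g z) := by
          rw [Matrix.mulVec_add, Matrix.mulVec_mulVec, add_assoc]
        rw [e4]
        refine (norm_add_le _ _).trans ?_
        have e5 : ‖r.A ((q w₀).g z) *ᵥ ((q w).A z *ᵥ w + (q w).β z)‖ ≤ D * 1 :=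
          (hD _).trans (mul_le_mul_of_nonneg_left (hq3 w).le hD0)
        linarith
    · exact ⟨0, fun w hw => absurd ⟨w, hw⟩ hk⟩
  choose B hB using h2
  refine ⟨∑ l, |B l|, ?_⟩
  intro w
  obtain ⟨t, ht, hle⟩ := hB (κ w) w rfl
  refine ⟨t, ht, hle.trans ((le_abs_self _).trans ?_)⟩
  exact Finset.single_le_sum (f := fun l => |B l|) (fun l _ => abs_nonneg _) (Finset.mem_univ _)

end fibgk

theorem fibgk (hGFINK : S_GFINK) (hFIXG : S_FIXG) : S_FIBGK := by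
  intro b k N c R P Φ Hf C hA hdisc i z hz
  obtain ⟨n, s, hG⟩ := hGFINK c R P Φ Hf C hA hdisc
  obtain ⟨f1, f2, f3, f4, -⟩ := hFIXG c R P Φ Hf C hA i
  have hz4 := ballK24 (c := c) i hz
  refine ⟨⟨TriK.one, f2, rfl⟩, ?_, ?_, ⟨C, ?_⟩, ?_, ?_⟩
  · rintro _ ⟨t, ht, rfl⟩ _ ⟨u, hu, rfl⟩
    refine ⟨t.comp u, f3 t u ht hu, ?_⟩
    show (t.A z * u.A z, t.A z *ᵥ u.β z + t.β z) =
      (t.A (u.g z) * u.A z, t.A (u.g z) *ᵥ u.β z + t.β (u.g z))
    rw [hu.2 z hz4]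
  · rintro _ ⟨t, ht, rfl⟩
    obtain ⟨u, hu, h1⟩ := f4 t ht
    exact ⟨_, ⟨u, hu, rfl⟩, (h1 z hz4).1, (h1 z hz4).2.2⟩
  · rintro _ ⟨t, ht, rfl⟩
    exact (hA.abd i t (f1 t ht) z hz4).1
  · intro r
    by_contra hinf
    have hinf' : Set.Infinite {p | p ∈ {p : Matrix (Fin k) (Fin k) ℂ × Cn k |
      ∃ t, FixK c P i t ∧ p = (t.A z, t.β z)} ∧ ‖p.2‖ ≤ r} := hinf
    obtain ⟨e, -⟩ : ∃ e : ℕ ↪ _, e = hinf'.natEmbedding := ⟨_, rfl⟩
    have hex : ∀ m : ℕ, ∃ t, FixK c P i t ∧ (e m : Matrix (Fin k) (Fin k) ℂ × Cn k) =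
        (t.A z, t.β z) := fun m => (e m).2.1
    choose t ht hte using hex
    have hβ : ∀ m, ‖(t m).β z‖ ≤ r := by
      intro m
      have := (e m).2.2
      rw [hte m] at this
      exact this
    obtain ⟨m, l, hml, heq⟩ := hA.fin i (C * (1 + r)) t (fun m => ⟨f1 _ (ht m), by
      refine (hA.bgr i (t m) (f1 _ (ht m)) (c i) (mem_ball_self (by norm_num)) z hz4).trans ?_
      have hC : 0 ≤ C := by linarith [hA.Cge]
      apply mul_le_mul_of_nonneg_left _ hC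
      linarith [hβ m]⟩)
    apply hml
    apply e.injective
    apply Subtype.ext
    rw [hte m, hte l, (heq z hz4).2.1, (heq z hz4).2.2]
  · obtain ⟨r, hr⟩ := cocK hA hG hz
    refine ⟨r, fun w => ?_⟩
    obtain ⟨t, ht, hle⟩ := hr w
    exact ⟨_, ⟨t, ht, rfl⟩, hle⟩

end Pool.Agent.Helper58.RK
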