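import Pool.Agent.Helper95.RK.GoalsB
import Pool.Agent.Helper95.RK.Basics
import Pool.Agent.Helper83.SP.DER

/-! Abstract derivations at a point and matrix calculus. -/

set_option autoImplicit false

open Complex Metric Set Filter Topology MeasureTheory
open scoped ContDiff ComplexConjugate ComplexOrder Manifold Matrix

namespace Pool.Agent.Helper58.RK

open Pool.Agent.Helper95.Lin Pool.Agent.Helper16.Abund Pool.Agent.Helper92.Orb
  Pool.Agent.Helper10.SP Pool.Agent.Helper95.RK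

variable {n : ℕ}

/-- Derivations at the point `x` of the smooth functions on `W`. -/
structure IsDer (W : Set (Cn n)) (x : Cn n) (δ : (Cn n → ℂ) → ℂ) : Prop where
  mem : x ∈ W
  mul : ∀ f g, ContDiffOn ℝ ∞ f W → ContDiffOn ℝ ∞ g W →
    δ (fun y => f y * g y) = f x * δ g + g x * δ f
  add : ∀ f g, ContDiffOn ℝ ∞ f W → ContDiffOn ℝ ∞ g W → δ (fun y => f y + g y) = δ f + δ g
  congr : ∀ f g, (∀ y ∈ W, f y = g y) → δ f = δ g
  const : ∀ c : ℂ, δ (fun _ => c) = 0

theorem isDer_cd (hWIRT : S_WIRT) {W : Set (Cn n)} (hO : IsOpen W) {x : Cn n} (hx : x ∈ W)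
    (l : Fin n) : IsDer W x (fun f => cd l f x) where
  mem := hx
  mul f g hf hg := ((hWIRT W hO f g hf hg).2.2.1 l x hx).1
  add f g hf hg := ((hWIRT W hO f g hf hg).2.1 l x hx).1
  congr f g h := (Pool.Agent.Helper83.SP.cd_congr hO h l hx).1
  const c := (Pool.Agent.Helper83.SP.cd_const c l x).1

theorem isDer_cdb (hWIRT : S_WIRT) {W : Set (Cn n)} (hO : IsOpen W) {x : Cn n} (hx : x ∈ W)
    (l : Fin n) : IsDer W x (fun f => cdb l f x) where
  mem := hx
  mul f g hf hg := ((hWIRT W hO f g hf hg).2.2.1 l x hx).2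
  add f g hf hg := ((hWIRT W hO f g hf hg).2.1 l x hx).2
  congr f g h := (Pool.Agent.Helper83.SP.cd_congr hO h l hx).2
  const c := (Pool.Agent.Helper83.SP.cd_const c l x).2

/-- Smooth matrix functions. -/
def SmM {p q : ℕ} (W : Set (Cn n)) (F : Cn n → Matrix (Fin p) (Fin q) ℂ) : Prop :=
  ∀ i j, ContDiffOn ℝ ∞ (fun y => F y i j) W

/-- Derivative of a matrix function. -/
def dM {p q : ℕ} (δ : (Cn n → ℂ) → ℂ) (F : Cn n → Matrix (Fin p) (Fin q) ℂ) :
    Matrix (Fin p) (Fin q) ℂ := Matrix.of fun i j => δ (fun y => F y i j)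

section

variable {W : Set (Cn n)} {x : Cn n} {δ : (Cn n → ℂ) → ℂ}

theorem IsDer.sum (h : IsDer W x δ) {ι : Type} (s : Finset ι) (f : ι → Cn n → ℂ)
    (hf : ∀ i ∈ s, ContDiffOn ℝ ∞ (f i) W) :
    δ (fun y => ∑ i ∈ s, f i y) = ∑ i ∈ s, δ (f i) := by
  classical
  induction s using Finset.induction_on with
  | empty => simpa using h.const 0
  | insert a s ha ih =>
    have hs : ∀ j ∈ s, ContDiffOn ℝ ∞ (f j) W := fun j hj => hf j (Finset.mem_insert_of_mem hj)
    simp only [Finset.sum_insert ha]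
    rw [← ih hs]
    exact h.add (f a) (fun y => ∑ i ∈ s, f i y) (hf a (Finset.mem_insert_self a s))
      (ContDiffOn.sum fun j hj => hs j hj)

theorem IsDer.cmul (h : IsDer W x δ) (c : ℂ) (f : Cn n → ℂ) (hf : ContDiffOn ℝ ∞ f W) :
    δ (fun y => c * f y) = c * δ f := by
  rw [h.mul (fun _ => c) f contDiffOn_const hf, h.const, mul_zero, add_zero]

theorem IsDer.prod (h : IsDer W x δ) {ι : Type} [DecidableEq ι] (s : Finset ι)
    (f : ι → Cn n → ℂ) (hf : ∀ i ∈ s, ContDiffOn ℝ ∞ (f i) W) :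
    δ (fun y => ∏ i ∈ s, f i y) = ∑ i ∈ s, (∏ j ∈ s.erase i, f j x) * δ (f i) := by
  induction s using Finset.induction_on with
  | empty => simpa using h.const 1
  | insert a s ha ih =>
    have hs : ∀ j ∈ s, ContDiffOn ℝ ∞ (f j) W := fun j hj => hf j (Finset.mem_insert_of_mem hj)
    simp only [Finset.prod_insert ha]
    rw [h.mul (f a) (fun y => ∏ i ∈ s, f i y) (hf a (Finset.mem_insert_self a s))
      (contDiffOn_prod fun j hj => hs j hj), ih hs, Finset.sum_insert ha,
      Finset.erase_insert ha, add_comm]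
    congr 1
    rw [Finset.mul_sum]
    refine Finset.sum_congr rfl fun i hi => ?_
    have hia : a ≠ i := fun e => ha (e ▸ hi)
    rw [Finset.erase_insert_of_ne hia, Finset.prod_insert (fun e => ha (Finset.mem_of_mem_erase e)),
      mul_assoc]

theorem SmM.mul {p q r : ℕ} {F : Cn n → Matrix (Fin p) (Fin q) ℂ}
    {G : Cn n → Matrix (Fin q) (Fin r) ℂ} (hF : SmM W F) (hG : SmM W G) :
    SmM W (fun y => F y * G y) := by
  intro i j
  simp only [Matrix.mul_apply]
  exact ContDiffOn.sum fun m _ => (hF i m).mul (hG m j)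

theorem SmM.trace {p : ℕ} {F : Cn n → Matrix (Fin p) (Fin p) ℂ} (hF : SmM W F) :
    ContDiffOn ℝ ∞ (fun y => (F y).trace) W := by
  simp only [Matrix.trace, Matrix.diag]
  exact ContDiffOn.sum fun m _ => hF m m

theorem SmM.det {p : ℕ} {F : Cn n → Matrix (Fin p) (Fin p) ℂ} (hF : SmM W F) :
    ContDiffOn ℝ ∞ (fun y => (F y).det) W := by
  simp only [Matrix.det_apply']
  exact ContDiffOn.sum fun σ _ => contDiffOn_const.mul (contDiffOn_prod fun i _ => hF (σ i) i)

theorem conj_sm {f : Cn n → ℂ} (hf : ContDiffOn ℝ ∞ f W) :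
    ContDiffOn ℝ ∞ (fun y => conj (f y)) W :=
  Complex.conjCLE.contDiff.comp_contDiffOn hf

theorem SmM.conjT {p q : ℕ} {F : Cn n → Matrix (Fin p) (Fin q) ℂ} (hF : SmM W F) :
    SmM W (fun y => (F y)ᴴ) := fun i j => conj_sm (hF j i)

theorem IsDer.mmul (h : IsDer W x δ) {p q r : ℕ} {F : Cn n → Matrix (Fin p) (Fin q) ℂ}
    {G : Cn n → Matrix (Fin q) (Fin r) ℂ} (hF : SmM W F) (hG : SmM W G) :
    dM δ (fun y => F y * G y) = dM δ F * G x + F x * dM δ G := by
  ext i j
  simp only [dM, Matrix.of_apply, Matrix.mul_apply, Matrix.add_apply]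
  rw [h.sum Finset.univ (fun m y => F y i m * G y m j) (fun m _ => (hF i m).mul (hG m j)),
    ← Finset.sum_add_distrib]
  refine Finset.sum_congr rfl fun m _ => ?_
  rw [h.mul _ _ (hF i m) (hG m j)]
  ring

theorem IsDer.trace (h : IsDer W x δ) {p : ℕ} {F : Cn n → Matrix (Fin p) (Fin p) ℂ}
    (hF : SmM W F) : δ (fun y => (F y).trace) = (dM δ F).trace := by
  simp only [Matrix.trace, Matrix.diag, dM, Matrix.of_apply]
  exact h.sum Finset.univ (fun m y => F y m m) (fun m _ => hF m m)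

theorem IsDer.inv (h : IsDer W x δ) {p : ℕ} {F G : Cn n → Matrix (Fin p) (Fin p) ℂ}
    (hF : SmM W F) (hG : SmM W G) (hFG : ∀ y ∈ W, F y * G y = 1) :
    dM δ G = - (G x * dM δ F * G x) := by
  have h1 := h.mmul hF hG
  have h2 : dM δ (fun y => F y * G y) = 0 := by
    ext i j
    show δ (fun y => (F y * G y) i j) = 0
    rw [h.congr _ (fun _ => (1 : Matrix (Fin p) (Fin p) ℂ) i j) (fun y hy => by rw [hFG y hy]),
      h.const]
  rw [h2] at h1
  have h3 : G x * F x = 1 := mul_eq_one_comm.1 (hFG x h.mem)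
  have h4 := congrArg (fun A => G x * A) h1
  simp only [Matrix.mul_zero, Matrix.mul_add, ← Matrix.mul_assoc, h3, Matrix.one_mul] at h4
  exact eq_neg_of_add_eq_zero_right h4.symm

theorem IsDer.det (h : IsDer W x δ) {p : ℕ} {F : Cn n → Matrix (Fin p) (Fin p) ℂ}
    (hF : SmM W F) : δ (fun y => (F y).det) = ((F x).adjugate * dM δ F).trace := by
  have e1 : δ (fun y => (F y).det) = ∑ σ : Equiv.Perm (Fin p), ((Equiv.Perm.sign σ : ℤ) : ℂ) *
      ∑ i, (∏ j ∈ Finset.univ.erase i, F x (σ j) j) * dM δ F (σ i) i := by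
    simp only [Matrix.det_apply']
    rw [h.sum Finset.univ (fun (σ : Equiv.Perm (Fin p)) y =>
      ((Equiv.Perm.sign σ : ℤ) : ℂ) * ∏ i, F y (σ i) i) (fun σ _ => contDiffOn_const.mul
      (contDiffOn_prod fun i _ => hF (σ i) i))]
    refine Finset.sum_congr rfl fun σ _ => ?_
    rw [h.cmul _ (fun y => ∏ i, F y (σ i) i) (contDiffOn_prod fun i _ => hF (σ i) i)]
    rw [h.prod Finset.univ (fun i y => F y (σ i) i) (fun i _ => hF (σ i) i)]
    rfl
  have h2 : ((F x).adjugate * dM δ F).trace =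
      ∑ i, ((F x).updateCol i (fun p => dM δ F p i)).det := by
    unfold Matrix.trace
    refine Finset.sum_congr rfl fun i _ => ?_
    rw [← Matrix.cramer_apply, Matrix.cramer_eq_adjugate_mulVec]
    rfl
  have h3 : ∀ i, ((F x).updateCol i (fun p => dM δ F p i)).det = ∑ σ : Equiv.Perm (Fin p),
      ((Equiv.Perm.sign σ : ℤ) : ℂ) *
        ((∏ j ∈ Finset.univ.erase i, F x (σ j) j) * dM δ F (σ i) i) := by
    intro i
    rw [Matrix.det_apply']
    refine Finset.sum_congr rfl fun σ _ => ?_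
    congr 1
    rw [← Finset.mul_prod_erase Finset.univ _ (Finset.mem_univ i), mul_comm]
    congr 1
    · refine Finset.prod_congr rfl fun j hj => ?_
      rw [Matrix.updateCol_ne (Finset.ne_of_mem_erase hj)]
    · rw [Matrix.updateCol_self]
  rw [e1, h2, Finset.sum_congr rfl fun i _ => h3 i, Finset.sum_comm]
  refine Finset.sum_congr rfl fun σ _ => ?_
  rw [Finset.mul_sum]

/-- Derivative of the determinant, if the derivative of the matrix is `Γ F`. -/
theorem IsDer.det_mul (h : IsDer W x δ) {p : ℕ} {F : Cn n → Matrix (Fin p) (Fin p) ℂ}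
    (hF : SmM W F) (Γ : Matrix (Fin p) (Fin p) ℂ) (hd : dM δ F = Γ * F x) :
    δ (fun y => (F y).det) = (F x).det * Γ.trace := by
  rw [h.det hF, hd, ← Matrix.mul_assoc, Matrix.trace_mul_comm, ← Matrix.mul_assoc,
    Matrix.mul_adjugate, Matrix.smul_mul, Matrix.one_mul, Matrix.trace_smul, smul_eq_mul]

end

end Pool.Agent.Helper58.RK
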